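import Pool.Agent.helper81.NW.Spec

/-!
# nw:DIS: no face at `x` meets a face at `y`
-/

set_option autoImplicit false

namespace Pool.Agent.helper81.NW

open Pool.Agent.helper84.NR
open scoped Classical
open Finset

/-- a vertex next to `x` on a face with `x` -/
theorem DIS_nb {V F : Type} (hEDG : EDG_stmt) (M : PMap V F) (x : V) :
    ∃ A v, OnV M.toCyc A x ∧ OnV M.toCyc A v ∧ v ≠ x := by
  obtain ⟨A, k, hk⟩ := M.cover x
  have h : OnE M.toCyc A s(M.bd A k, M.bd A (k + 1)) := ⟨k, rfl⟩
  obtain ⟨h1, h2, h3⟩ := (hEDG V F M).1 A _ _ h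
  refine ⟨A, M.bd A (k + 1), ⟨k, hk⟩, h2, ?_⟩
  rw [← hk]
  exact fun h => h3 h.symm

/-- a shortest walk between the neighbourhoods -/
theorem DIS_walk {V F : Type} (hEDG : EDG_stmt) (hGCO : GCO_stmt) (M : PMap V F) (x y : V)
    (hd : ∀ A B v, OnV M.toCyc A x → OnV M.toCyc B y → OnV M.toCyc A v → ¬ OnV M.toCyc B v) :
    ∃ (L : ℕ) (r : ℕ → V), (∀ i, i < L → Adj M.toCyc (r i) (r (i + 1))) ∧
      (∃ A, OnV M.toCyc A x ∧ OnV M.toCyc A (r 0)) ∧ r 0 ≠ x ∧
      (∃ B, OnV M.toCyc B y ∧ OnV M.toCyc B (r L)) ∧ r L ≠ y ∧ 1 ≤ L ∧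
      (∀ j, 1 ≤ j → j ≤ L → ∀ A, OnV M.toCyc A x → ¬ OnV M.toCyc A (r j)) ∧
      (∀ j, j < L → ∀ B, OnV M.toCyc B y → ¬ OnV M.toCyc B (r j)) ∧
      (∀ i j, i ≤ L → j ≤ L → r i = r j → i = j) := by
  obtain ⟨E1, E2⟩ := hEDG V F M
  obtain ⟨P, hP⟩ : ∃ P : ℕ → Prop, P = fun L => ∃ r : ℕ → V, (∀ i, i < L → Adj M.toCyc (r i) (r (i + 1))) ∧
      (∃ A, OnV M.toCyc A x ∧ OnV M.toCyc A (r 0)) ∧ r 0 ≠ x ∧
      (∃ B, OnV M.toCyc B y ∧ OnV M.toCyc B (r L)) ∧ r L ≠ y := ⟨_, rfl⟩
  have hex : ∃ L, P L := by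
    obtain ⟨A, v, hAx, hAv, hvx⟩ := DIS_nb hEDG M x
    obtain ⟨B, w, hBy, hBw, hwy⟩ := DIS_nb hEDG M y
    obtain ⟨n, q, q0, qn, hq⟩ := hGCO V F M v w
    refine ⟨n, ?_⟩
    rw [hP]
    refine ⟨q, hq, ⟨A, hAx, ?_⟩, ?_, ⟨B, hBy, ?_⟩, ?_⟩
    · rw [q0]
      exact hAv
    · rw [q0]
      exact hvx
    · rw [qn]
      exact hBw
    · rw [qn]
      exact hwy
  obtain ⟨L, hL, hmin⟩ : ∃ L, P L ∧ ∀ L' < L, ¬ P L' :=
    ⟨Nat.find hex, Nat.find_spec hex, fun L' h => Nat.find_min hex h⟩
  rw [hP] at hL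
  obtain ⟨r, hr, ⟨A, hAx, hAr⟩, hr0, ⟨B, hBy, hBr⟩, hrL⟩ := hL
  have hxF : ∃ A, OnV M.toCyc A x := M.cover x
  have hyF : ∃ B, OnV M.toCyc B y := M.cover y
  have hL1 : 1 ≤ L := by
    by_contra h
    have h0 : L = 0 := by omega
    rw [h0] at hBr
    exact hd A B (r 0) hAx hBy hAr hBr
  -- cutting at the beginning
  have hcut1 : ∀ j, 1 ≤ j → j ≤ L → (∃ A, OnV M.toCyc A x ∧ OnV M.toCyc A (r j)) → r j ≠ x → False := by
    intro j hj1 hjL hA' hne
    refine hmin (L - j) (by omega) ?_
    rw [hP]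
    refine ⟨fun i => r (j + i), ?_, ?_, ?_, ⟨B, hBy, ?_⟩, ?_⟩
    · intro i hi
      exact hr (j + i) (by omega)
    · exact hA'
    · exact hne
    · show OnV M.toCyc B (r (j + (L - j)))
      rw [Nat.add_sub_cancel' hjL]
      exact hBr
    · show r (j + (L - j)) ≠ y
      rw [Nat.add_sub_cancel' hjL]
      exact hrL
  have hcut2 : ∀ j, j < L → (∃ B, OnV M.toCyc B y ∧ OnV M.toCyc B (r j)) → r j ≠ y → False := by
    intro j hjL hB' hne
    refine hmin j hjL ?_
    rw [hP]
    exact ⟨r, fun i hi => hr i (by omega), ⟨A, hAx, hAr⟩, hr0, hB', hne⟩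
  refine ⟨L, r, hr, ⟨A, hAx, hAr⟩, hr0, ⟨B, hBy, hBr⟩, hrL, hL1, ?_, ?_, ?_⟩
  · intro j hj1 hjL A' hA' hA'r
    by_cases hne : r j = x
    · have hjL' : j < L := by
        rcases Nat.lt_or_ge j L with h | h
        · exact h
        · exfalso
          have hj : j = L := by omega
          rw [← hj, hne] at hBr
          exact hd A B x hAx hBy hAx hBr
      obtain ⟨f, hf⟩ := hr j hjL'
      obtain ⟨f1, f2, f3⟩ := E1 f _ _ hf
      rw [hne] at f1 f3
      exact hcut1 (j + 1) (by omega) hjL' ⟨f, f1, f2⟩ (fun h => f3 h.symm)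
    · exact hcut1 j hj1 hjL ⟨A', hA', hA'r⟩ hne
  · intro j hjL B' hB' hB'r
    by_cases hne : r j = y
    · have hj1 : 1 ≤ j := by
        by_contra h
        have hj : j = 0 := by omega
        rw [hj] at hne
        rw [hne] at hAr
        exact hd A B y hAx hBy hAr hBy
      obtain ⟨i, rfl⟩ : ∃ i, j = i + 1 := ⟨j - 1, by omega⟩
      obtain ⟨f, hf⟩ := hr i (by omega)
      obtain ⟨f1, f2, f3⟩ := E1 f _ _ hf
      rw [hne] at f2 f3
      exact hcut2 i (by omega) ⟨f, f2, f1⟩ f3
    · exact hcut2 j hjL ⟨B', hB', hB'r⟩ hne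
  · have hlt : ∀ i j, i < j → j ≤ L → r i ≠ r j := by
      intro i j hij hjL heq
      refine hmin (L - (j - i)) (by omega) ?_
      rw [hP]
      obtain ⟨r', hr'⟩ : ∃ r' : ℕ → V, r' = fun k => if k ≤ i then r k else r (k + (j - i)) := ⟨_, rfl⟩
      have r1 : ∀ k, k ≤ i → r' k = r k := by
        intro k hk
        rw [hr']
        exact if_pos hk
      have r2 : ∀ k, i ≤ k → r' k = r (k + (j - i)) := by
        intro k hk
        rcases Nat.eq_or_lt_of_le hk with h | h
        · rw [r1 k (by omega), ← h, heq]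
          congr 1
          omega
        · rw [hr']
          exact if_neg (by omega)
      refine ⟨r', ?_, ⟨A, hAx, ?_⟩, ?_, ⟨B, hBy, ?_⟩, ?_⟩
      · intro k hk
        rcases Nat.lt_or_ge k i with h | h
        · rw [r1 k h.le, r1 (k + 1) h]
          exact hr k (by omega)
        · rw [r2 k h, r2 (k + 1) (by omega)]
          have e : k + 1 + (j - i) = k + (j - i) + 1 := by omega
          rw [e]
          exact hr _ (by omega)
      · rw [r1 0 (by omega)]
        exact hAr
      · rw [r1 0 (by omega)]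
        exact hr0
      · rw [r2 _ (by omega)]
        have e : L - (j - i) + (j - i) = L := by omega
        rw [e]
        exact hBr
      · rw [r2 _ (by omega)]
        have e : L - (j - i) + (j - i) = L := by omega
        rw [e]
        exact hrL
    intro i j hi hj hij
    rcases Nat.lt_trichotomy i j with h | h | h
    · exact absurd hij (hlt i j h hj)
    · exact h
    · exact absurd hij.symm (hlt j i h hi)

theorem DIS (hEDG : EDG_stmt) (hARM : ARM_stmt) (hGCO : GCO_stmt) : DIS_stmt := by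
  intro V F M x y hd
  obtain ⟨E1, E2⟩ := hEDG V F M
  obtain ⟨L, r, rE, ⟨A, hAx, hAr⟩, hr0, ⟨B, hBy, hBr⟩, hrL, hL1, rX, rY, rinj⟩ :=
    DIS_walk hEDG hGCO M x y hd
  obtain ⟨m, a, a0, hm, am, ainj, aE, aN⟩ := (hARM V F M x y A hAx).1 (r 0) hAr hr0
  obtain ⟨n, b, b0, hn, bn, binj, bE, bN⟩ := (hARM V F M y x B hBy).1 (r L) hBr hrL
  have hA : ∀ j, j ≤ m → OnV M.toCyc A (a j) := by
    intro j hj
    rcases Nat.eq_zero_or_pos j with h | h
    · rw [h, a0]
      exact hAx
    · obtain ⟨i, rfl⟩ : ∃ i, j = i + 1 := ⟨j - 1, by omega⟩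
      exact (E1 A _ _ (aE i (by omega))).2.1
  have hB : ∀ j, j ≤ n → OnV M.toCyc B (b j) := by
    intro j hj
    rcases Nat.eq_zero_or_pos j with h | h
    · rw [h, b0]
      exact hBy
    · obtain ⟨i, rfl⟩ : ∃ i, j = i + 1 := ⟨j - 1, by omega⟩
      exact (E1 B _ _ (bE i (by omega))).2.1
  obtain ⟨q, hq⟩ : ∃ q : ℕ → V, q = fun k => if k ≤ m then a k else if k ≤ m + L then r (k - m)
      else b (m + L + n - k) := ⟨_, rfl⟩
  have qa : ∀ k, k ≤ m → q k = a k := by
    intro k hk
    rw [hq]
    exact if_pos hk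
  have qr : ∀ k, m ≤ k → k ≤ m + L → q k = r (k - m) := by
    intro k hk hk2
    rcases Nat.eq_or_lt_of_le hk with h | h
    · rw [qa k (by omega), ← h, am, Nat.sub_self]
    · rw [hq]
      show (if k ≤ m then a k else if k ≤ m + L then r (k - m) else b (m + L + n - k)) = r (k - m)
      rw [if_neg (by omega), if_pos hk2]
  have qb : ∀ k, m + L ≤ k → k ≤ m + L + n → q k = b (m + L + n - k) := by
    intro k hk hk2
    rcases Nat.eq_or_lt_of_le hk with h | h
    · rw [qr k (by omega) (by omega), ← h]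
      have e1 : m + L - m = L := by omega
      have e2 : m + L + n - (m + L) = n := by omega
      rw [e1, e2, bn]
    · rw [hq]
      show (if k ≤ m then a k else if k ≤ m + L then r (k - m) else b (m + L + n - k)) = b (m + L + n - k)
      rw [if_neg (by omega), if_neg (by omega)]
  -- vertices on faces at `x` and at `y`
  have hX : ∀ f, OnV M.toCyc f x → ∀ k, k ≤ m + L + n → OnV M.toCyc f (q k) → k ≤ m := by
    intro f hf k hk hfk
    by_contra hlt
    rcases Nat.lt_or_ge k (m + L) with h | h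
    · rw [qr k (by omega) h.le] at hfk
      exact rX (k - m) (by omega) (by omega) f hf hfk
    · rw [qb k h hk] at hfk
      exact hd f B _ hf hBy hfk (hB _ (by omega))
  have hY : ∀ f, OnV M.toCyc f y → ∀ k, k ≤ m + L + n → OnV M.toCyc f (q k) → m + L ≤ k := by
    intro f hf k hk hfk
    by_contra hlt
    rcases Nat.lt_or_ge m k with h | h
    · rw [qr k h.le (by omega)] at hfk
      exact rY (k - m) (by omega) f hf hfk
    · rw [qa k h] at hfk
      exact hd A f _ hAx hf (hA k h) hfk
  have hE1 : ∀ k, k < m → OnE M.toCyc A s(q k, q (k + 1)) := by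
    intro k hk
    rw [qa k hk.le, qa (k + 1) hk]
    exact aE k hk
  have hE3 : ∀ k, m + L ≤ k → k < m + L + n → OnE M.toCyc B s(q k, q (k + 1)) := by
    intro k hk hk2
    rw [qb k hk hk2.le, qb (k + 1) (by omega) hk2]
    obtain ⟨l, hl⟩ : ∃ l, l = m + L + n - (k + 1) := ⟨_, rfl⟩
    have e1 : m + L + n - k = l + 1 := by omega
    rw [e1, ← hl, Sym2.eq_swap]
    exact bE l (by omega)
  have hadj : ∀ k, k < m + L + n → Adj M.toCyc (q k) (q (k + 1)) := by
    intro k hk
    rcases Nat.lt_or_ge k m with h | h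
    · exact ⟨A, hE1 k h⟩
    · rcases Nat.lt_or_ge k (m + L) with h2 | h2
      · rw [qr k h h2.le, qr (k + 1) (by omega) h2]
        have e : k + 1 - m = k - m + 1 := by omega
        rw [e]
        exact rE (k - m) (by omega)
      · exact ⟨B, hE3 k h2 hk⟩
  refine ⟨m + L + n, q, ?_, ?_, ?_, hadj, ?_⟩
  · rw [qa 0 (by omega), a0]
  · rw [qb (m + L + n) (by omega) le_rfl, Nat.sub_self, b0]
  · intro i j hi hj hij
    rcases Nat.lt_or_ge m i with h1 | h1
    · rcases Nat.lt_or_ge i (m + L) with h2 | h2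
      · -- middle
        rcases Nat.lt_or_ge m j with h3 | h3
        · rcases Nat.lt_or_ge j (m + L) with h4 | h4
          · rw [qr i h1.le h2.le, qr j h3.le h4.le] at hij
            have := rinj _ _ (by omega) (by omega) hij
            omega
          · exfalso
            have h5 : OnV M.toCyc B (q j) := by
              rw [qb j h4 hj]
              exact hB _ (by omega)
            rw [← hij] at h5
            have := hY B hBy i hi h5
            omega
        · exfalso
          have h5 : OnV M.toCyc A (q j) := by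
            rw [qa j h3]
            exact hA j h3
          rw [← hij] at h5
          have := hX A hAx i hi h5
          omega
      · have h5 : OnV M.toCyc B (q i) := by
          rw [qb i h2 hi]
          exact hB _ (by omega)
        rw [hij] at h5
        have h6 := hY B hBy j hj h5
        rw [qb i h2 hi, qb j h6 hj] at hij
        have := binj _ _ (by omega) (by omega) hij
        omega
    · have h5 : OnV M.toCyc A (q i) := by
        rw [qa i h1]
        exact hA i h1
      rw [hij] at h5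
      have h6 := hX A hAx j hj h5
      rw [qa i h1, qa j h6] at hij
      exact ainj i j h1 h6 hij
  · intro f hf i j hij hj hfi hfj k hik hkj
    rcases hf with hf | hf
    · have hjm := hX f hf j hj hfj
      by_cases hfA : f = A
      · rw [hfA]
        exact hE1 k (by omega)
      · have hj1 : j < 2 := by
          by_contra hge
          rw [qa j hjm] at hfj
          have hne : x ≠ a j := by
            intro h
            rw [← a0] at h
            have := ainj 0 j (by omega) hjm h
            omega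
          exact aN j (by omega) hjm ⟨f, (M.poly f A hfA x (a j) hne hf hfj hAx (hA j hjm)).1⟩
        have hk0 : k = 0 := by omega
        have hj1 : j = 1 := by omega
        have hi0 : i = 0 := by omega
        rw [hk0]
        rw [hi0] at hfi
        rw [hj1] at hfj
        exact E2 f _ _ (hadj 0 (by omega)) hfi hfj
    · have him := hY f hf i (by omega) hfi
      by_cases hfB : f = B
      · rw [hfB]
        exact hE3 k (by omega) (by omega)
      · have hi1 : m + L + n - i < 2 := by
          by_contra hge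
          rw [qb i him (by omega)] at hfi
          have hne : y ≠ b (m + L + n - i) := by
            intro h
            rw [← b0] at h
            have := binj 0 (m + L + n - i) (by omega) (by omega) h
            omega
          exact bN (m + L + n - i) (by omega) (by omega)
            ⟨f, (M.poly f B hfB y _ hne hf hfi hBy (hB _ (by omega))).1⟩
        have hk0 : k = i := by omega
        have hj1 : j = i + 1 := by omega
        rw [hk0]
        rw [hj1] at hfj
        exact E2 f _ _ (hadj i (by omega)) hfi hfj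

end Pool.Agent.helper81.NW
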